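import Mathlib
import Pool.Agent.Q180.WT.StmB

/-!
# Project WT, job LAB: letters with an involution can be numbered as the letters of labels
-/

namespace Pool.Agent.Q247.WT

open Pool.Agent.Q180.WT
open Pool.Agent.Q59.GC (Labels Letter letter_ext dual_of_not)

section

variable {P R : Type} [Fintype P] [DecidableEq P] [Fintype R] [DecidableEq R] {cls : R → P}
    {inv : R → R} {b : P → P}

/-- The involution as a bijection of the fibres. -/
def invE (hb : ∀ p, b (b p) = p) (hi : ∀ x, inv (inv x) = x) (hc : ∀ x, cls (inv x) = b (cls x))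
    (p : P) : {x // cls x = p} ≃ {x // cls x = b p} where
  toFun x := ⟨inv x.1, by rw [hc, x.2]⟩
  invFun x := ⟨inv x.1, by rw [hc, x.2, hb]⟩
  left_inv x := Subtype.ext (hi x.1)
  right_inv x := Subtype.ext (hi x.1)

theorem card_b (hb : ∀ p, b (b p) = p) (hi : ∀ x, inv (inv x) = x)
    (hc : ∀ x, cls (inv x) = b (cls x)) (p : P) :
    Fintype.card {x // cls x = b p} = Fintype.card {x // cls x = p} :=
  (Fintype.card_congr (invE hb hi hc p)).symm

/-- The exponents. -/
noncomputable def exn (cls : R → P) (b : P → P) (p : P) : Multiset (ZMod 3) :=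
  if Fintype.card {x // cls x = p} % 2 = 0 then 0
  else if Fintype.equivFin P p < Fintype.equivFin P (b p) then {1, 1, 1} else {-1, -1, -1}

/-- Half the number of the letters that are left. -/
def hlf (cls : R → P) (p : P) : ℤ :=
  if Fintype.card {x // cls x = p} % 2 = 0 then ((Fintype.card {x // cls x = p} / 2 : ℕ) : ℤ)
  else ((Fintype.card {x // cls x = p} / 2 : ℕ) : ℤ) - 1

/-- The labels. -/
noncomputable def lb (hb : ∀ p, b (b p) = p) (hi : ∀ x, inv (inv x) = x)
    (hc : ∀ x, cls (inv x) = b (cls x))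
    (h2 : ∀ p, b p = p → Fintype.card {x // cls x = p} = 2) : Labels 3 P where
  star := b
  star_star := hb
  orth := fun _ => false
  orth_star := fun i h => absurd h (by simp)
  dim := fun p => Fintype.card {x // cls x = p}
  dim_star := card_b hb hi hc
  ex := exn cls b
  half := hlf cls
  dim_eq := by
    intro p
    unfold exn hlf
    have h := Nat.div_add_mod (Fintype.card {x // cls x = p}) 2
    rcases Nat.mod_two_eq_zero_or_one (Fintype.card {x // cls x = p}) with h1 | h1
    · rw [if_pos h1, if_pos h1]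
      simp only [Multiset.card_zero]
      omega
    · have h1' : ¬ Fintype.card {x // cls x = p} % 2 = 0 := by omega
      rw [if_neg h1', if_neg h1']
      split_ifs
      · change _ = ((3 : ℕ) : ℤ) + _
        omega
      · change _ = ((3 : ℕ) : ℤ) + _
        omega
  ex_ne := by
    intro p
    unfold exn
    split_ifs
    · simp
    · change (0 : ZMod 3) ∉ ({1, 1, 1} : Multiset (ZMod 3))
      decide
    · change (0 : ZMod 3) ∉ ({-1, -1, -1} : Multiset (ZMod 3))
      decide
  ex_sum := by
    intro p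
    unfold exn
    split_ifs
    · simp
    · change ({1, 1, 1} : Multiset (ZMod 3)).sum = 0
      decide
    · change ({-1, -1, -1} : Multiset (ZMod 3)).sum = 0
      decide
  ex_star := by
    intro p
    unfold exn
    rw [card_b hb hi hc p, hb p]
    rcases Nat.mod_two_eq_zero_or_one (Fintype.card {x // cls x = p}) with h1 | h1
    · rw [if_pos h1, if_pos h1]
      rfl
    · have h1' : ¬ Fintype.card {x // cls x = p} % 2 = 0 := by omega
      rw [if_neg h1', if_neg h1']
      have hbp : b p ≠ p := by
        intro h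
        have := h2 p h
        omega
      have hbo : Fintype.equivFin P (b p) ≠ Fintype.equivFin P p := fun h =>
        hbp ((Fintype.equivFin P).injective h)
      rcases lt_or_gt_of_ne hbo with h3 | h3
      · rw [if_pos h3, if_neg (not_lt.2 h3.le)]
        change ({1, 1, 1} : Multiset (ZMod 3)) =
          Multiset.map (fun a => -a) ({-1, -1, -1} : Multiset (ZMod 3))
        decide
      · rw [if_neg (not_lt.2 h3.le), if_pos h3]
        rfl

/-- The numbering of the fibres. -/
noncomputable def num (hb : ∀ p, b (b p) = p) (hi : ∀ x, inv (inv x) = x)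
    (hc : ∀ x, cls (inv x) = b (cls x)) (p : P) :
    {x // cls x = p} ≃ Fin (Fintype.card {x // cls x = p}) :=
  if Fintype.equivFin P (b p) < Fintype.equivFin P p then
    (invE hb hi hc p).trans ((Fintype.equivFin {x // cls x = b p}).trans
      ((finCongr (card_b hb hi hc p)).trans Fin.revPerm))
  else Fintype.equivFin {x // cls x = p}

theorem num_pos (hb : ∀ p, b (b p) = p) (hi : ∀ x, inv (inv x) = x)
    (hc : ∀ x, cls (inv x) = b (cls x)) (p : P)
    (h : Fintype.equivFin P (b p) < Fintype.equivFin P p) (x : {x // cls x = p}) :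
    (num hb hi hc p x : ℕ) = Fintype.card {x // cls x = p} - 1 -
      (Fintype.equivFin {x // cls x = b p} (invE hb hi hc p x) : ℕ) := by
  unfold num
  rw [if_pos h]
  simp only [Equiv.trans_apply, Fin.revPerm_apply, Fin.val_rev, finCongr_apply, Fin.val_cast]
  omega

theorem num_neg (hb : ∀ p, b (b p) = p) (hi : ∀ x, inv (inv x) = x)
    (hc : ∀ x, cls (inv x) = b (cls x)) (p : P)
    (h : ¬ Fintype.equivFin P (b p) < Fintype.equivFin P p) (x : {x // cls x = p}) :
    num hb hi hc p x = Fintype.equivFin {x // cls x = p} x := by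
  unfold num
  rw [if_neg h]

theorem eqv_val {p q : P} (h : p = q) (x : R) (hx : cls x = p) (hx' : cls x = q) :
    (Fintype.equivFin {x // cls x = p} ⟨x, hx⟩ : ℕ) =
      Fintype.equivFin {x // cls x = q} ⟨x, hx'⟩ := by
  subst h
  rfl

theorem num_inv (hb : ∀ p, b (b p) = p) (hi : ∀ x, inv (inv x) = x) (hne : ∀ x, inv x ≠ x)
    (hc : ∀ x, cls (inv x) = b (cls x))
    (h2 : ∀ p, b p = p → Fintype.card {x // cls x = p} = 2) (x : R) :
    (num hb hi hc (cls (inv x)) ⟨inv x, rfl⟩ : ℕ) + 1 + (num hb hi hc (cls x) ⟨x, rfl⟩ : ℕ) =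
      Fintype.card {y // cls y = cls x} := by
  have hq : ∀ (q : P) (hq : cls (inv x) = q), (num hb hi hc (cls (inv x)) ⟨inv x, rfl⟩ : ℕ) =
      num hb hi hc q ⟨inv x, hq⟩ := by
    intro q hq
    subst hq
    rfl
  rw [hq (b (cls x)) (hc x)]
  by_cases h1 : b (cls x) = cls x
  · have h3 : ∀ (q : P) (hq : q = cls x) (h : cls (inv x) = q),
        (num hb hi hc q ⟨inv x, h⟩ : ℕ) = num hb hi hc (cls x) ⟨inv x, h.trans hq⟩ := by
      intro q hq h
      subst hq
      rfl
    rw [h3 (b (cls x)) h1 (hc x)]
    have h4 := h2 _ h1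
    have h5 := (num hb hi hc (cls x) ⟨inv x, (hc x).trans h1⟩).2
    have h6 := (num hb hi hc (cls x) ⟨x, rfl⟩).2
    have h7 : (num hb hi hc (cls x) ⟨inv x, (hc x).trans h1⟩ : ℕ) ≠
        num hb hi hc (cls x) ⟨x, rfl⟩ := by
      intro h
      have := (num hb hi hc (cls x)).injective (Fin.ext h)
      exact hne x (congrArg Subtype.val this)
    omega
  · have hbo : Fintype.equivFin P (b (cls x)) ≠ Fintype.equivFin P (cls x) := fun h =>
      h1 ((Fintype.equivFin P).injective h)
    rcases lt_or_gt_of_ne hbo with h3 | h3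
    · rw [num_pos hb hi hc (cls x) h3, num_neg hb hi hc (b (cls x)) (by rw [hb]; exact not_lt.2 h3.le)]
      have h5 := (Fintype.equivFin {y // cls y = b (cls x)} ⟨inv x, hc x⟩).2.trans_eq
        (card_b hb hi hc (cls x))
      have h6 : invE hb hi hc (cls x) ⟨x, rfl⟩ = ⟨inv x, hc x⟩ := rfl
      rw [h6]
      have h7 : 0 < Fintype.card {y // cls y = cls x} := by omega
      omega
    · rw [num_neg hb hi hc (cls x) (not_lt.2 h3.le), num_pos hb hi hc (b (cls x)) (by rw [hb]; exact h3),
        card_b hb hi hc (cls x)]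
      have h5 := (Fintype.equivFin {y // cls y = cls x} ⟨x, rfl⟩).2
      have h6 : (Fintype.equivFin {y // cls y = b (b (cls x))}
          (invE hb hi hc (b (cls x)) ⟨inv x, hc x⟩) : ℕ) =
          Fintype.equivFin {y // cls y = cls x} ⟨x, rfl⟩ := by
        have h7 : invE hb hi hc (b (cls x)) ⟨inv x, hc x⟩ = ⟨x, (hb (cls x)).symm⟩ :=
          Subtype.ext (hi x)
        rw [h7]
        exact eqv_val (hb (cls x)) x _ rfl
      rw [h6]
      omega

end

/-- JOB LAB. Letters with an involution can be numbered as the letters of labels. -/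
theorem lab : S_lab := by
  intro P R _ _ _ _ cls inv b hb hi hne hc h2
  refine ⟨lb hb hi hc h2, (Equiv.sigmaFiberEquiv cls).symm.trans
    (Equiv.sigmaCongrRight fun p => num hb hi hc p), fun _ => rfl, fun _ => rfl, fun _ => rfl, ?_⟩
  intro x
  rw [dual_of_not (by exact Bool.false_ne_true)]
  refine letter_ext (hc x).symm ?_
  have h := num_inv hb hi hne hc h2 x
  have h3 := (num hb hi hc (cls x) ⟨x, rfl⟩).2
  change (Fin.rev (num hb hi hc (cls x) ⟨x, rfl⟩) : ℕ) = (num hb hi hc (cls (inv x)) ⟨inv x, rfl⟩ : ℕ)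
  rw [Fin.val_rev]
  omega

end Pool.Agent.Q247.WT
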